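import Mathlib

/-!
# MP_9ab454_lc : a conform Blum measure with a complexity class that is not r.e.
-/

namespace Pool.Agent.Results.MP_9ab454_lc.ConformNotRE

open Nat.Partrec Computable

/-! ## Definitions -/

/-- A Blum measure `(φ, Φ)`: `φ` is an acceptable Gödel numbering of the unary partial recursive
functions (its universal function is partial recursive and every partial recursive numbering
`ψ` translates computably into `φ`), and `Φ` is a sequence of partial recursive functions with
`dom Φ i = dom φ i` and a recursive graph predicate `Φ i x = y`. -/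
structure BlumMeasure where
  /-- the Gödel numbering -/
  φ : ℕ → ℕ →. ℕ
  /-- the cost functions -/
  Φ : ℕ → ℕ →. ℕ
  φ_partrec : Partrec₂ φ
  φ_translation : ∀ ψ : ℕ → ℕ →. ℕ, Partrec₂ ψ →
    ∃ g : ℕ → ℕ, Computable g ∧ ∀ i, φ (g i) = ψ i
  Φ_partrec : ∀ i, Partrec (Φ i)
  dom_eq : ∀ i x, (Φ i x).Dom ↔ (φ i x).Dom
  graph : ComputablePred fun p : ℕ × ℕ × ℕ => p.2.2 ∈ Φ p.1 p.2.1

namespace BlumMeasure

variable (B : BlumMeasure)

/-- program `i` computes the total function `f` -/
def Computes (i : ℕ) (f : ℕ → ℕ) : Prop := ∀ x, B.φ i x = Part.some (f x)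

/-- The complexity class `Φ(t)`: all total `f = φ i` with `Φ i x ≤ t x` for almost all `x`. -/
def cls (t : ℕ → ℕ) : Set (ℕ → ℕ) :=
  {f | ∃ i, B.Computes i f ∧ ∃ n, ∀ x ≥ n, ∃ y ∈ B.Φ i x, y ≤ t x}

/-- The index set `ΩΦ(t) = {i : φ i ∈ Φ(t)}`. -/
def Omega (t : ℕ → ℕ) : ℕ → Prop := fun i => ∃ f ∈ B.cls t, B.Computes i f

/-- Conformity: the index sets of all nonempty classes are one-one equivalent. -/
def Conform : Prop :=
  ∀ t₁ t₂ : ℕ → ℕ, Computable t₁ → Computable t₂ →
    (B.cls t₁).Nonempty → (B.cls t₂).Nonempty → OneOneEquiv (B.Omega t₁) (B.Omega t₂)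

/-- A class of total functions is recursively enumerable if it is empty or of the form
`{φ (g n) : n}` with `g` total recursive. -/
def IsRE (C : Set (ℕ → ℕ)) : Prop :=
  C = ∅ ∨ ∃ g : ℕ → ℕ, Computable g ∧ (∀ n, ∃ f ∈ C, B.Computes (g n) f) ∧
    ∀ f ∈ C, ∃ n, B.Computes (g n) f

end BlumMeasure

/-! ## The measure -/

/-- finite support functions with value `0` at `0` -/
def tab (i x : ℕ) : ℕ := cond (x == 0) 0 ((Denumerable.ofNat (List ℕ) i).getD x 0)

/-- bounded evaluation: the value of program `i` at `x` if its cost is at most `b` -/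
def E (i b x : ℕ) : Option ℕ :=
  cond (i % 3 == 0) (Code.evaln b (Denumerable.ofNat Code (i / 3)) x)
    (cond (i % 3 == 1) (some (tab (i / 3) x))
      (cond (!(Code.evaln x (Denumerable.ofNat Code (i / 3)) 0).isSome || !(b == 0))
        (some (i / 3 + 1)) none))

lemma tab_prim : Primrec₂ tab := by
  unfold tab
  exact Primrec.cond (Primrec.beq.comp Primrec.snd (Primrec.const 0)) (Primrec.const 0)
    ((Primrec.list_getD 0).comp ((Primrec.ofNat (List ℕ)).comp Primrec.fst) Primrec.snd)

lemma E_prim : Primrec fun p : (ℕ × ℕ) × ℕ => E p.1.1 p.1.2 p.2 := by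
  unfold E
  have hi : Primrec fun p : (ℕ × ℕ) × ℕ => p.1.1 := Primrec.fst.comp Primrec.fst
  have hb : Primrec fun p : (ℕ × ℕ) × ℕ => p.1.2 := Primrec.snd.comp Primrec.fst
  have hx : Primrec fun p : (ℕ × ℕ) × ℕ => p.2 := Primrec.snd
  have hd : Primrec fun p : (ℕ × ℕ) × ℕ => p.1.1 / 3 :=
    Primrec.nat_div.comp hi (Primrec.const 3)
  have hm : Primrec fun p : (ℕ × ℕ) × ℕ => p.1.1 % 3 :=
    Primrec.nat_mod.comp hi (Primrec.const 3)
  have hc : Primrec fun p : (ℕ × ℕ) × ℕ => Denumerable.ofNat Code (p.1.1 / 3) :=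
    (Primrec.ofNat Code).comp hd
  refine Primrec.cond (Primrec.beq.comp hm (Primrec.const 0)) ?_ ?_
  · exact Code.primrec_evaln.comp ((hb.pair hc).pair hx)
  · refine Primrec.cond (Primrec.beq.comp hm (Primrec.const 1)) ?_ ?_
    · exact Primrec.option_some.comp (tab_prim.comp hd hx)
    · refine Primrec.cond ?_ ?_ (Primrec.const none)
      · refine Primrec.or.comp ?_ ?_
        · exact Primrec.not.comp (Primrec.option_isSome.comp
            (Code.primrec_evaln.comp ((hx.pair hc).pair (Primrec.const 0))))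
        · exact Primrec.not.comp (Primrec.beq.comp hb (Primrec.const 0))
      · exact Primrec.option_some.comp (Primrec.succ.comp hd)

lemma E_mono {i b b' x v : ℕ} (h : b ≤ b') (hv : E i b x = some v) : E i b' x = some v := by
  unfold E at hv ⊢
  by_cases h0 : (i % 3 == 0) = true
  · rw [h0] at hv ⊢
    exact Code.evaln_mono h hv
  · rw [Bool.not_eq_true] at h0
    rw [h0] at hv ⊢
    by_cases h1 : (i % 3 == 1) = true
    · rw [h1] at hv ⊢
      exact hv
    · rw [Bool.not_eq_true] at h1
      rw [h1] at hv ⊢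
      simp only [cond_false] at hv ⊢
      by_cases h2 : (!(Code.evaln x (Denumerable.ofNat Code (i / 3)) 0).isSome) = true
      · rw [h2] at hv ⊢
        simpa using hv
      · rw [Bool.not_eq_true] at h2
        rw [h2] at hv ⊢
        rcases Nat.eq_zero_or_pos b with rfl | hb
        · simp at hv
        · have hb' : (b == 0) = false := by
            rw [beq_eq_false_iff_ne]
            omega
          have hb'' : (b' == 0) = false := by
            rw [beq_eq_false_iff_ne]
            omega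
          rw [hb'] at hv
          rw [hb'']
          exact hv

/-- the numbering -/
def phi (i : ℕ) : ℕ →. ℕ := fun x => Nat.rfindOpt fun b => E i b x

/-- the cost -/
def Phi (i : ℕ) : ℕ →. ℕ := fun x => Nat.rfind fun b => Part.some (E i b x).isSome

lemma mem_phi {i x v : ℕ} : v ∈ phi i x ↔ ∃ b, E i b x = some v := by
  unfold phi
  rw [Nat.rfindOpt_mono]
  · rfl
  · intro a m n hmn h
    exact E_mono hmn h

lemma mem_Phi {i x y : ℕ} : y ∈ Phi i x ↔ (E i y x).isSome = true ∧
    ∀ z < y, (E i z x).isSome = false := by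
  have key := @Nat.mem_rfind (fun b => Part.some (E i b x).isSome) y
  constructor
  · intro h
    obtain ⟨h1, h2⟩ := key.1 h
    exact ⟨(Part.mem_some_iff.1 h1).symm, fun z hz => (Part.mem_some_iff.1 (h2 hz)).symm⟩
  · rintro ⟨h1, h2⟩
    exact key.2 ⟨Part.mem_some_iff.2 h1.symm, fun {z} hz => Part.mem_some_iff.2 (h2 z hz).symm⟩

lemma Phi_le {i x b : ℕ} : (∃ y ∈ Phi i x, y ≤ b) ↔ (E i b x).isSome = true := by
  constructor
  · rintro ⟨y, hy, hyb⟩
    obtain ⟨v, hv⟩ := Option.isSome_iff_exists.1 (mem_Phi.1 hy).1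
    rw [E_mono hyb hv]
    rfl
  · intro h
    classical
    have hex : ∃ y, (E i y x).isSome = true := ⟨b, h⟩
    refine ⟨Nat.find hex, mem_Phi.2 ⟨Nat.find_spec hex, fun z hz => ?_⟩, Nat.find_min' hex h⟩
    have := Nat.find_min hex hz
    simpa using this

lemma Phi_dom (i x : ℕ) : (Phi i x).Dom ↔ (phi i x).Dom := by
  rw [Part.dom_iff_mem, Part.dom_iff_mem]
  constructor
  · rintro ⟨y, hy⟩
    obtain ⟨v, hv⟩ := Option.isSome_iff_exists.1 (mem_Phi.1 hy).1
    exact ⟨v, mem_phi.2 ⟨y, hv⟩⟩
  · rintro ⟨v, hv⟩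
    obtain ⟨b, hb⟩ := mem_phi.1 hv
    obtain ⟨y, hy, -⟩ := (Phi_le (i := i) (x := x) (b := b)).2 (by rw [hb]; rfl)
    exact ⟨y, hy⟩

lemma phi_partrec : Partrec₂ phi := by
  have h : Computable₂ fun (p : ℕ × ℕ) (b : ℕ) => E p.1 b p.2 := by
    have : Primrec fun q : (ℕ × ℕ) × ℕ => E q.1.1 q.2 q.1.2 :=
      E_prim.comp (((Primrec.fst.comp Primrec.fst).pair Primrec.snd).pair
        (Primrec.snd.comp Primrec.fst))
    exact this.to_comp
  exact Partrec.rfindOpt h

lemma Phi_partrec : Partrec₂ Phi := by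
  have h : Partrec₂ fun (p : ℕ × ℕ) (b : ℕ) => Part.some (E p.1 b p.2).isSome := by
    have : Primrec fun q : (ℕ × ℕ) × ℕ => (E q.1.1 q.2 q.1.2).isSome :=
      Primrec.option_isSome.comp (E_prim.comp (((Primrec.fst.comp Primrec.fst).pair
        Primrec.snd).pair (Primrec.snd.comp Primrec.fst)))
    exact this.to_comp.partrec
  exact Partrec.rfind h

lemma graph_computable : ComputablePred fun p : ℕ × ℕ × ℕ => p.2.2 ∈ Phi p.1 p.2.1 := by
  have key : ∀ p : ℕ × ℕ × ℕ, ((E p.1 p.2.2 p.2.1).isSome &&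
      (p.2.2 == 0 || !(E p.1 (p.2.2 - 1) p.2.1).isSome)) = true ↔ p.2.2 ∈ Phi p.1 p.2.1 := by
    rintro ⟨i, x, y⟩
    rw [mem_Phi]
    simp only [Bool.and_eq_true, Bool.or_eq_true, beq_iff_eq, Bool.not_eq_true']
    constructor
    · rintro ⟨h1, h2⟩
      refine ⟨h1, fun z hz => ?_⟩
      rcases h2 with h2 | h2
      · omega
      · by_contra hcon
        rw [Bool.not_eq_false] at hcon
        obtain ⟨v, hv⟩ := Option.isSome_iff_exists.1 hcon
        rw [E_mono (by omega : z ≤ y - 1) hv] at h2
        simp at h2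
    · rintro ⟨h1, h2⟩
      refine ⟨h1, ?_⟩
      rcases Nat.eq_zero_or_pos y with h0 | h0
      · exact Or.inl h0
      · exact Or.inr (h2 _ (by omega))
  have hp : Primrec fun p : ℕ × ℕ × ℕ => ((E p.1 p.2.2 p.2.1).isSome &&
      (p.2.2 == 0 || !(E p.1 (p.2.2 - 1) p.2.1).isSome)) := by
    have hi : Primrec fun p : ℕ × ℕ × ℕ => p.1 := Primrec.fst
    have hx : Primrec fun p : ℕ × ℕ × ℕ => p.2.1 := Primrec.fst.comp Primrec.snd
    have hy : Primrec fun p : ℕ × ℕ × ℕ => p.2.2 := Primrec.snd.comp Primrec.snd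
    refine Primrec.and.comp (Primrec.option_isSome.comp (E_prim.comp ((hi.pair hy).pair hx))) ?_
    refine Primrec.or.comp (Primrec.beq.comp hy (Primrec.const 0)) ?_
    exact Primrec.not.comp (Primrec.option_isSome.comp (E_prim.comp
      ((hi.pair (Primrec.pred.comp hy)).pair hx)))
  classical
  refine ⟨Classical.decPred _, ?_⟩
  refine hp.to_comp.of_eq fun p => ?_
  rw [Bool.eq_iff_iff, key p, decide_eq_true_iff]

lemma phi_three (k : ℕ) : phi (3 * k) = Code.eval (Denumerable.ofNat Code k) := by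
  funext x
  rw [Code.eval_eq_rfindOpt]
  unfold phi
  congr 1
  funext b
  unfold E
  have h0 : ((3 * k) % 3 == 0) = true := by
    rw [beq_iff_eq]
    omega
  have h1 : 3 * k / 3 = k := by omega
  rw [h0, h1]
  rfl

lemma translation_inj (ψ : ℕ → ℕ →. ℕ) (h : Partrec₂ ψ) :
    ∃ g : ℕ → ℕ, Computable g ∧ Function.Injective g ∧ ∀ i, phi (g i) = ψ i := by
  obtain ⟨c, hc⟩ := Code.exists_code.1 (Partrec₂.unpaired'.2 h)
  refine ⟨fun i => 3 * Encodable.encode (Code.curry c i), ?_, ?_, ?_⟩
  · have : Primrec fun i : ℕ => 3 * Encodable.encode (Code.curry c i) :=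
      Primrec.nat_mul.comp (Primrec.const 3)
        (Primrec.encode.comp (Code.primrec₂_curry.comp (Primrec.const c) Primrec.id))
    exact this.to_comp
  · intro a b hab
    have h1 : Encodable.encode (Code.curry c a) = Encodable.encode (Code.curry c b) := by
      simp only at hab
      omega
    exact (Code.curry_inj (Encodable.encode_injective h1)).2
  · intro i
    rw [phi_three, Denumerable.ofNat_encode]
    funext x
    rw [Code.eval_curry, hc]
    simp [Nat.unpaired]

/-- the Blum measure -/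
def measure : BlumMeasure where
  φ := phi
  Φ := Phi
  φ_partrec := phi_partrec
  φ_translation ψ h := by
    obtain ⟨g, h1, -, h2⟩ := translation_inj ψ h
    exact ⟨g, h1, h2⟩
  Φ_partrec i := Phi_partrec.comp (Computable.const i) Computable.id
  dom_eq := Phi_dom
  graph := graph_computable


/-! ## Basic facts about the classes -/

lemma computes_iff {i : ℕ} {f : ℕ → ℕ} :
    measure.Computes i f ↔ ∀ x, ∃ b, E i b x = some (f x) := by
  constructor
  · intro h x
    exact mem_phi.1 (Part.eq_some_iff.1 (h x))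
  · intro h x
    exact Part.eq_some_iff.2 (mem_phi.2 (h x))

lemma E_eq_of_computes {i : ℕ} {f : ℕ → ℕ} (h : measure.Computes i f) {b x : ℕ}
    (hs : (E i b x).isSome = true) : E i b x = some (f x) := by
  obtain ⟨v, hv⟩ := Option.isSome_iff_exists.1 hs
  have h1 : v ∈ phi i x := mem_phi.2 ⟨b, hv⟩
  have h2 : f x ∈ phi i x := Part.eq_some_iff.1 (h x)
  rw [hv, Part.mem_unique h1 h2]

lemma mem_cls {t f : ℕ → ℕ} : f ∈ measure.cls t ↔
    ∃ i, measure.Computes i f ∧ ∃ n, ∀ x ≥ n, (E i (t x) x).isSome = true := by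
  constructor
  · rintro ⟨i, h1, n, h2⟩
    exact ⟨i, h1, n, fun x hx => Phi_le.1 (h2 x hx)⟩
  · rintro ⟨i, h1, n, h2⟩
    exact ⟨i, h1, n, fun x hx => Phi_le.2 (h2 x hx)⟩

lemma E_tab (k b x : ℕ) : E (3 * k + 1) b x = some (tab k x) := by
  unfold E
  have h0 : ((3 * k + 1) % 3 == 0) = false := by
    rw [beq_eq_false_iff_ne]
    omega
  have h1 : ((3 * k + 1) % 3 == 1) = true := by
    rw [beq_iff_eq]
    omega
  have h2 : (3 * k + 1) / 3 = k := by omega
  rw [h0, h1, h2]
  rfl

lemma E_two (k b x : ℕ) : E (3 * k + 2) b x =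
    cond (!(Code.evaln x (Denumerable.ofNat Code k) 0).isSome || !(b == 0))
        (some (k + 1)) none := by
  unfold E
  have h0 : ((3 * k + 2) % 3 == 0) = false := by
    rw [beq_eq_false_iff_ne]
    omega
  have h1 : ((3 * k + 2) % 3 == 1) = false := by
    rw [beq_eq_false_iff_ne]
    omega
  have h2 : (3 * k + 2) / 3 = k := by omega
  rw [h0, h1, h2]
  rfl

lemma finite_support_mem (t g : ℕ → ℕ) (h0 : g 0 = 0) (h : ∃ N, ∀ x ≥ N, g x = 0) :
    g ∈ measure.cls t := by
  obtain ⟨N, hN⟩ := h
  rw [mem_cls]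
  have key : ∀ x, tab (Encodable.encode ((List.range N).map g)) x = g x := by
    intro x
    unfold tab
    rw [Denumerable.ofNat_encode]
    by_cases hx : x = 0
    · subst hx
      rw [h0]
      rfl
    · have : (x == 0) = false := by
        rw [beq_eq_false_iff_ne]
        exact hx
      rw [this]
      simp only [cond_false]
      by_cases hxN : x < N
      · simp [List.getD, hxN]
      · rw [hN x (by omega)]
        simp [List.getD, hxN]
  refine ⟨3 * Encodable.encode ((List.range N).map g) + 1, ?_, 0, fun x _ => ?_⟩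
  · rw [computes_iff]
    intro x
    exact ⟨0, by rw [E_tab, key]⟩
  · rw [E_tab]
    rfl

/-! ## The class `Φ(0)` is not r.e. -/

lemma const_mem_iff (k : ℕ) : (∃ f ∈ measure.cls (fun _ => 0), f 0 = k + 1) ↔
    ¬ (Code.eval (Denumerable.ofNat Code k) 0).Dom := by
  constructor
  · rintro ⟨f, hf, hf0⟩ hdom
    obtain ⟨i, hi, n, hn⟩ := mem_cls.1 hf
    have h3 : i % 3 = 0 ∨ i % 3 = 1 ∨ i % 3 = 2 := by omega
    rcases h3 with h3 | h3 | h3
    · have := hn n le_rfl
      unfold E at this
      rw [h3] at this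
      simp [Code.evaln] at this
    · obtain ⟨j, rfl⟩ : ∃ j, i = 3 * j + 1 := ⟨i / 3, by omega⟩
      obtain ⟨b, hb⟩ := computes_iff.1 hi 0
      rw [E_tab] at hb
      have : tab j 0 = f 0 := by simpa using hb
      rw [hf0] at this
      simp [tab] at this
    · obtain ⟨j, rfl⟩ : ∃ j, i = 3 * j + 2 := ⟨i / 3, by omega⟩
      have hjk : j = k := by
        obtain ⟨b, hb⟩ := computes_iff.1 hi 0
        rw [E_two] at hb
        cases hc : (!(Code.evaln 0 (Denumerable.ofNat Code j) 0).isSome || !(b == 0)) with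
        | false => rw [hc] at hb; simp at hb
        | true =>
          rw [hc] at hb
          simp only [cond_true, Option.some.injEq] at hb
          omega
      subst hjk
      obtain ⟨v, hv⟩ := Part.dom_iff_mem.1 hdom
      obtain ⟨K, hK⟩ := Code.evaln_complete.1 hv
      have h4 := hn (max n K) (le_max_left _ _)
      have h5 : v ∈ Code.evaln (max n K) (Denumerable.ofNat Code j) 0 :=
        Code.evaln_mono (le_max_right _ _) hK
      rw [E_two] at h4
      have h6 : Code.evaln (max n K) (Denumerable.ofNat Code j) 0 = some v := h5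
      rw [h6] at h4
      simp at h4
  · intro hnd
    have hnone : ∀ x, (Code.evaln x (Denumerable.ofNat Code k) 0).isSome = false := by
      intro x
      by_contra hcon
      rw [Bool.not_eq_false] at hcon
      obtain ⟨v, hv⟩ := Option.isSome_iff_exists.1 hcon
      exact hnd (Part.dom_iff_mem.2 ⟨v, Code.evaln_sound hv⟩)
    refine ⟨fun _ => k + 1, mem_cls.2 ⟨3 * k + 2, ?_, 0, fun x _ => ?_⟩, rfl⟩
    · rw [computes_iff]
      intro x
      refine ⟨0, ?_⟩
      rw [E_two, hnone x]
      rfl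
    · rw [E_two, hnone x]
      rfl

lemma const_of_mem (k : ℕ) (h : ¬ (Code.eval (Denumerable.ofNat Code k) 0).Dom) :
    ∃ f ∈ measure.cls (fun _ => 0), f 0 = k + 1 := (const_mem_iff k).2 h

lemma not_re : ¬ measure.IsRE (measure.cls (fun _ => 0)) := by
  rintro (h | ⟨g, hg, h1, h2⟩)
  · have : (fun _ => 0 : ℕ → ℕ) ∈ measure.cls (fun _ => 0) :=
      finite_support_mem _ _ rfl ⟨0, fun _ _ => rfl⟩
    rw [h] at this
    exact this
  · apply ComputablePred.halting_problem_not_re 0
    choose f hf hfc using h1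
    have hval : ∀ n, phi (g n) 0 = Part.some (f n 0) := fun n => hfc n 0
    have hP : Partrec₂ fun (c : Code) (n : ℕ) =>
        (phi (g n) 0).map fun v => decide (v = Encodable.encode c + 1) := by
      refine Partrec.map ?_ ?_
      · exact phi_partrec.comp (hg.comp Computable.snd) (Computable.const 0)
      · have h3 : Computable fun q : (Code × ℕ) × ℕ =>
            decide (q.2 = Encodable.encode q.1.1 + 1) :=
          (Primrec.eq.decide.comp Primrec.snd (Primrec.succ.comp
            (Primrec.encode.comp (Primrec.fst.comp Primrec.fst)))).to_comp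
        exact h3
    have hre := (Partrec.rfind hP).dom_re
    refine hre.of_eq fun c => ?_
    have key := @Nat.rfind_dom
      (fun n => (phi (g n) 0).map fun v => decide (v = Encodable.encode c + 1))
    refine key.trans ?_
    have hc : c = Denumerable.ofNat Code (Encodable.encode c) :=
      (Denumerable.ofNat_encode c).symm
    constructor
    · rintro ⟨n, hn, -⟩
      rw [hval n, Part.map_some, Part.mem_some_iff] at hn
      have h4 : f n 0 = Encodable.encode c + 1 := by simpa using hn.symm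
      rw [hc]
      exact (const_mem_iff _).1 ⟨f n, hf n, h4⟩
    · intro hnd
      rw [hc] at hnd
      obtain ⟨F, hF, hF0⟩ := const_of_mem _ hnd
      obtain ⟨n, hn⟩ := h2 F hF
      refine ⟨n, ?_, fun {m} _ => ?_⟩
      · have h5 : phi (g n) 0 = Part.some (F 0) := hn 0
        rw [h5, Part.map_some, Part.mem_some_iff, hF0]
        simp
      · rw [hval m, Part.map_some]
        trivial

/-! ## Conformity -/

attribute [local irreducible] E

/-- the decidable matrix: candidate `p = (j, k)` is consistent at `y` with the value `v` -/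
def G (t : ℕ → ℕ) (p y v : ℕ) : Bool :=
  Encodable.encode (E p.unpair.1 (t y + (p.unpair.2 - y)) y) == v + 1

lemma G_iff {t : ℕ → ℕ} {p y v : ℕ} :
    G t p y v = true ↔ E p.unpair.1 (t y + (p.unpair.2 - y)) y = some v := by
  unfold G
  rw [beq_iff_eq]
  cases E p.unpair.1 (t y + (p.unpair.2 - y)) y with
  | none => simp
  | some u => simp

/-- the code of `E` as a natural number -/
def EN (q : ℕ × ℕ × ℕ) : ℕ := Encodable.encode (E q.1 q.2.1 q.2.2)

lemma EN_computable : Computable EN := by
  have h : Computable fun q : ℕ × ℕ × ℕ => E q.1 q.2.1 q.2.2 :=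
    (E_prim.comp ((Primrec.fst.pair (Primrec.fst.comp Primrec.snd)).pair
      (Primrec.snd.comp Primrec.snd))).to_comp
  exact Computable.encode.comp h

lemma G_computable {t : ℕ → ℕ} (ht : Computable t) :
    Computable fun w : (ℕ × ℕ) × ℕ => G t w.1.1 w.1.2 w.2 := by
  have hp : Computable fun w : (ℕ × ℕ) × ℕ => w.1.1.unpair :=
    (Primrec.unpair.comp (Primrec.fst.comp Primrec.fst)).to_comp
  have hp1 : Computable fun w : (ℕ × ℕ) × ℕ => w.1.1.unpair.1 := Computable.fst.comp hp
  have hp2 : Computable fun w : (ℕ × ℕ) × ℕ => w.1.1.unpair.2 := Computable.snd.comp hp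
  have hy : Computable fun w : (ℕ × ℕ) × ℕ => w.1.2 := (Primrec.snd.comp Primrec.fst).to_comp
  have hty : Computable fun w : (ℕ × ℕ) × ℕ => t w.1.2 := ht.comp hy
  have hadd : Computable₂ fun a b : ℕ => a + b := Primrec.nat_add.to_comp
  have hsub : Computable₂ fun a b : ℕ => a - b := Primrec.nat_sub.to_comp
  have hbeq : Computable₂ fun a b : ℕ => (a == b) := Primrec.beq.to_comp
  have hd : Computable fun w : (ℕ × ℕ) × ℕ => w.1.1.unpair.2 - w.1.2 := hsub.comp hp2 hy
  have hb : Computable fun w : (ℕ × ℕ) × ℕ => t w.1.2 + (w.1.1.unpair.2 - w.1.2) :=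
    hadd.comp hty hd
  have hE : Computable fun w : (ℕ × ℕ) × ℕ =>
      EN (w.1.1.unpair.1, t w.1.2 + (w.1.1.unpair.2 - w.1.2), w.1.2) :=
    EN_computable.comp (hp1.pair (hb.pair hy))
  have hv : Computable fun w : (ℕ × ℕ) × ℕ => w.2 + 1 := Computable.succ.comp Computable.snd
  have hfin : Computable fun w : (ℕ × ℕ) × ℕ =>
      (EN (w.1.1.unpair.1, t w.1.2 + (w.1.1.unpair.2 - w.1.2), w.1.2) == w.2 + 1) :=
    hbeq.comp hE hv
  exact hfin.of_eq fun w => rfl

attribute [local irreducible] G

/-- partial evaluation of `∀ y < n, G t p y (φ i y)` -/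
def okP (t : ℕ → ℕ) (i p n : ℕ) : Part Bool :=
  Nat.rec (Part.some true) (fun y IH => IH.bind fun b => (phi i y).map fun v => b && G t p y v) n

lemma okP_partrec {t : ℕ → ℕ} (ht : Computable t) :
    Partrec₂ fun (a : ℕ × ℕ) (p : ℕ) => okP t a.1 p (a.2 + 1) := by
  have h : Partrec fun q : (ℕ × ℕ) × ℕ =>
      (Nat.rec (Part.some true)
        (fun y IH => IH.bind fun b => (phi q.1.1 y).map fun v => b && G t q.2 y v)
        (q.1.2 + 1) : Part Bool) := by
    refine Partrec.nat_rec (f := fun q : (ℕ × ℕ) × ℕ => q.1.2 + 1)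
      (g := fun _ => Part.some true)
      (h := fun q r => (phi q.1.1 r.1).map fun v => r.2 && G t q.2 r.1 v) ?_ ?_ ?_
    · exact Computable.succ.comp (Computable.snd.comp Computable.fst)
    · exact (Computable.const true).partrec
    · refine Partrec.map ?_ ?_
      · exact phi_partrec.comp (Computable.fst.comp (Computable.fst.comp Computable.fst))
          (Computable.fst.comp Computable.snd)
      · have k1 : Computable fun w : (((ℕ × ℕ) × ℕ) × (ℕ × Bool)) × ℕ => w.1.1.2 :=
          Computable.snd.comp (Computable.fst.comp Computable.fst)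
        have k2 : Computable fun w : (((ℕ × ℕ) × ℕ) × (ℕ × Bool)) × ℕ => w.1.2.1 :=
          Computable.fst.comp (Computable.snd.comp Computable.fst)
        have k3 : Computable fun w : (((ℕ × ℕ) × ℕ) × (ℕ × Bool)) × ℕ => w.2 := Computable.snd
        have k4 : Computable fun w : (((ℕ × ℕ) × ℕ) × (ℕ × Bool)) × ℕ =>
            ((w.1.1.2, w.1.2.1), w.2) := (k1.pair k2).pair k3
        have h1 : Computable fun w : (((ℕ × ℕ) × ℕ) × (ℕ × Bool)) × ℕ =>
            G t w.1.1.2 w.1.2.1 w.2 :=
          Computable.comp (f := fun w : (ℕ × ℕ) × ℕ => G t w.1.1 w.1.2 w.2)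
            (g := fun w : (((ℕ × ℕ) × ℕ) × (ℕ × Bool)) × ℕ => ((w.1.1.2, w.1.2.1), w.2))
            (G_computable ht) k4
        have h2 : Computable fun w : (((ℕ × ℕ) × ℕ) × (ℕ × Bool)) × ℕ => w.1.2.2 :=
          Computable.snd.comp (Computable.snd.comp Computable.fst)
        have h3 : Computable₂ fun a b : Bool => (a && b) := Primrec.and.to_comp
        exact h3.comp h2 h1
  exact h

/-- least candidate `p` with `∀ y ≤ x, G t p y (φ i y)` or `x < p` -/
def mP (t : ℕ → ℕ) (i x : ℕ) : Part ℕ :=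
  Nat.rfind fun p => (okP t i p (x + 1)).map fun b => b || decide (x < p)

lemma mP_partrec {t : ℕ → ℕ} (ht : Computable t) : Partrec₂ (mP t) := by
  have h : Partrec₂ fun (a : ℕ × ℕ) (p : ℕ) =>
      (okP t a.1 p (a.2 + 1)).map fun b => b || decide (a.2 < p) := by
    refine Partrec.map (okP_partrec ht) ?_
    have h1 : Computable fun w : ((ℕ × ℕ) × ℕ) × Bool => decide (w.1.1.2 < w.1.2) :=
      (Primrec.nat_lt.decide.comp (Primrec.snd.comp (Primrec.fst.comp Primrec.fst))
        (Primrec.snd.comp Primrec.fst)).to_comp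
    have h3 : Computable₂ fun a b : Bool => (a || b) := Primrec.or.to_comp
    exact h3.comp Computable.snd h1
  exact Partrec.rfind h

/-- `∑_{e < n} (E e (t x) x).getD 0` -/
def S (t : ℕ → ℕ) (x n : ℕ) : ℕ :=
  Nat.rec 0 (fun e ih => ih + (E e (t x) x).getD 0) n

lemma S_computable {t : ℕ → ℕ} (ht : Computable t) : Computable fun x => S t x x := by
  refine Computable.nat_rec (f := fun x : ℕ => x) (g := fun _ => 0)
    (h := fun x r => r.2 + (E r.1 (t x) x).getD 0) Computable.id (Computable.const 0) ?_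
  have h1 : Computable fun w : ℕ × (ℕ × ℕ) => E w.2.1 (t w.1) w.1 :=
    (E_prim.to_comp).comp (((Computable.fst.comp Computable.snd).pair
      (ht.comp Computable.fst)).pair Computable.fst)
  exact (Primrec.nat_add.to_comp).comp (Computable.snd.comp Computable.snd)
    (Computable.option_getD h1 (Computable.const 0))

lemma S_ge (t : ℕ → ℕ) (x e n : ℕ) (h : e < n) : (E e (t x) x).getD 0 ≤ S t x n := by
  induction n with
  | zero => omega
  | succ n ih =>
    have h1 : S t x (n + 1) = S t x n + (E n (t x) x).getD 0 := rfl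
    rw [h1]
    rcases Nat.lt_succ_iff_lt_or_eq.1 h with h2 | h2
    · have := ih h2
      omega
    · subst h2
      omega

/-- the functions produced by the reduction -/
def F (t₁ t₂ : ℕ → ℕ) (i : ℕ) : ℕ →. ℕ := fun x =>
  (mP t₁ i x).bind fun m1 => (mP t₁ i (x - 1)).map fun m0 => cond (m1 == m0) 0 (1 + S t₂ x x)

lemma F_partrec {t₁ t₂ : ℕ → ℕ} (h₁ : Computable t₁) (h₂ : Computable t₂) :
    Partrec₂ (F t₁ t₂) := by
  have hm : Partrec fun a : ℕ × ℕ => mP t₁ a.1 a.2 := mP_partrec h₁
  refine Partrec.bind (f := fun a : ℕ × ℕ => mP t₁ a.1 a.2)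
    (g := fun a m1 => (mP t₁ a.1 (a.2 - 1)).map fun m0 =>
      cond (m1 == m0) 0 (1 + S t₂ a.2 a.2)) hm ?_
  refine Partrec.map ?_ ?_
  · exact (mP_partrec h₁).comp (Computable.fst.comp Computable.fst)
      (Computable.pred.comp (Computable.snd.comp Computable.fst))
  · have h3 : Computable fun w : ((ℕ × ℕ) × ℕ) × ℕ => (w.1.2 == w.2) :=
      (Primrec.beq.comp (Primrec.snd.comp Primrec.fst) Primrec.snd).to_comp
    have h4 : Computable fun w : ((ℕ × ℕ) × ℕ) × ℕ => 1 + S t₂ w.1.1.2 w.1.1.2 :=
      (Primrec.nat_add.to_comp).comp (Computable.const 1) ((S_computable h₂).comp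
        (Computable.snd.comp (Computable.fst.comp Computable.fst)))
    exact Computable.cond h3 (Computable.const 0) h4

/-! ### Semantics of the reduction -/

/-- `∀ y ≤ x, G t p y (f y)` -/
def ok (t f : ℕ → ℕ) (p x : ℕ) : Prop := ∀ y < x + 1, G t p y (f y) = true

instance (t f : ℕ → ℕ) (p x : ℕ) : Decidable (ok t f p x) := by
  unfold ok
  infer_instance

lemma ok_anti {t f : ℕ → ℕ} {p x x' : ℕ} (h : x ≤ x') (hok : ok t f p x') : ok t f p x :=
  fun y hy => hok y (by omega)

lemma okP_eq {t f : ℕ → ℕ} {i : ℕ} (hf : measure.Computes i f) (p n : ℕ) :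
    okP t i p n = Part.some (decide (∀ y < n, G t p y (f y) = true)) := by
  induction n with
  | zero =>
    simp [okP]
  | succ n ih =>
    have h1 : okP t i p (n + 1) =
      (okP t i p n).bind fun b => (phi i n).map fun v => b && G t p n v := rfl
    have h2 : phi i n = Part.some (f n) := hf n
    rw [h1, ih, Part.bind_some, h2, Part.map_some]
    congr 1
    rw [Bool.eq_iff_iff]
    simp only [Bool.and_eq_true, decide_eq_true_eq]
    constructor
    · rintro ⟨h3, h4⟩ y hy
      rcases Nat.lt_succ_iff_lt_or_eq.1 hy with h5 | h5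
      · exact h3 y h5
      · rw [h5]
        exact h4
    · intro h3
      exact ⟨fun y hy => h3 y (by omega), h3 n (by omega)⟩

lemma exists_m (t f : ℕ → ℕ) (x : ℕ) : ∃ p, ok t f p x ∨ x < p := ⟨x + 1, Or.inr (by omega)⟩

/-- the least candidate -/
def m (t f : ℕ → ℕ) (x : ℕ) : ℕ := Nat.find (exists_m t f x)

lemma mP_eq {t f : ℕ → ℕ} {i : ℕ} (hf : measure.Computes i f) (x : ℕ) :
    mP t i x = Part.some (m t f x) := by
  rw [Part.eq_some_iff]
  have hval : ∀ p, (okP t i p (x + 1)).map (fun b => b || decide (x < p)) =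
      Part.some (decide (ok t f p x ∨ x < p)) := by
    intro p
    rw [okP_eq hf, Part.map_some]
    congr 1
    rw [Bool.eq_iff_iff]
    simp only [Bool.or_eq_true, decide_eq_true_eq]
    rfl
  have key := @Nat.mem_rfind (fun p => (okP t i p (x + 1)).map fun b => b || decide (x < p))
    (m t f x)
  refine key.2 ⟨?_, ?_⟩
  · rw [hval, Part.mem_some_iff]
    have := Nat.find_spec (exists_m t f x)
    exact (decide_eq_true this).symm
  · intro p hp
    rw [hval, Part.mem_some_iff]
    have := Nat.find_min (exists_m t f x) hp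
    exact (decide_eq_false this).symm

/-- the total function produced for total `φ i` -/
def hfun (t₁ t₂ f : ℕ → ℕ) (x : ℕ) : ℕ :=
  cond (m t₁ f x == m t₁ f (x - 1)) 0 (1 + S t₂ x x)

lemma F_eq {t₁ t₂ f : ℕ → ℕ} {i : ℕ} (hf : measure.Computes i f) (x : ℕ) :
    F t₁ t₂ i x = Part.some (hfun t₁ t₂ f x) := by
  unfold F
  rw [mP_eq hf, mP_eq hf, Part.bind_some, Part.map_some]
  rfl

lemma okP_dom {t : ℕ → ℕ} {i p n : ℕ} (h : (okP t i p n).Dom) : ∀ y < n, (phi i y).Dom := by
  induction n with
  | zero =>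
    intro y hy
    omega
  | succ n ih =>
    have h1 : okP t i p (n + 1) =
      (okP t i p n).bind fun b => (phi i n).map fun v => b && G t p n v := rfl
    rw [h1] at h
    obtain ⟨hd, h2⟩ := h
    intro y hy
    rcases Nat.lt_succ_iff_lt_or_eq.1 hy with h5 | h5
    · exact ih hd y h5
    · rw [h5]
      exact h2

lemma F_dom {t₁ t₂ : ℕ → ℕ} {i x : ℕ} (h : (F t₁ t₂ i x).Dom) : (phi i x).Dom := by
  unfold F at h
  obtain ⟨hd, -⟩ := h
  have key := @Nat.rfind_dom' (fun p => (okP t₁ i p (x + 1)).map fun b => b || decide (x < p))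
  obtain ⟨n, -, h3⟩ := key.1 hd
  have h4 : (okP t₁ i 0 (x + 1)).Dom := h3 (Nat.zero_le n)
  exact okP_dom h4 x (by omega)

lemma mem_cls_iff {t f : ℕ → ℕ} : (∃ p, ∀ y, G t p y (f y) = true) ↔ f ∈ measure.cls t := by
  rw [mem_cls]
  constructor
  · rintro ⟨p, hp⟩
    have hp' : ∀ y, E p.unpair.1 (t y + (p.unpair.2 - y)) y = some (f y) := fun y =>
      G_iff.1 (hp y)
    refine ⟨p.unpair.1, computes_iff.2 fun x => ⟨_, hp' x⟩, p.unpair.2, fun x hx => ?_⟩
    have := hp' x
    have h0 : p.unpair.2 - x = 0 := by omega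
    rw [h0, Nat.add_zero] at this
    rw [this]
    rfl
  · rintro ⟨j, hj, n, hn⟩
    choose b hb using computes_iff.1 hj
    let M := (Finset.range n).sup b
    have hM : ∀ y < n, b y ≤ M := fun y hy => Finset.le_sup (f := b) (Finset.mem_range.2 hy)
    refine ⟨Nat.pair j (n + M), fun y => ?_⟩
    rw [G_iff, Nat.unpair_pair]
    by_cases hy : y < n
    · have := hM y hy
      exact E_mono (by omega : b y ≤ t y + (n + M - y)) (hb y)
    · exact E_mono (by omega : t y ≤ t y + (n + M - y))
        (E_eq_of_computes hj (hn y (by omega)))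

lemma hfun_small {t₁ t₂ f : ℕ → ℕ} (h : ∃ p, ∀ y, G t₁ p y (f y) = true) :
    hfun t₁ t₂ f ∈ measure.cls t₂ := by
  classical
  apply finite_support_mem
  · simp [hfun]
  · let p₀ := Nat.find h
    have hp₀ : ∀ y, G t₁ p₀ y (f y) = true := Nat.find_spec h
    have hlt : ∀ p < p₀, ∃ x, ¬ ok t₁ f p x := by
      intro p hp
      have := Nat.find_min h hp
      push Not at this
      obtain ⟨y, hy⟩ := this
      exact ⟨y, fun hok => hy (hok y (by omega))⟩
    choose! xs hxs using hlt
    let X := max p₀ ((Finset.range p₀).sup xs)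
    have hm : ∀ x ≥ X, m t₁ f x = p₀ := by
      intro x hx
      have hx1 : p₀ ≤ x := (le_max_left _ _).trans hx
      have hx2 : (Finset.range p₀).sup xs ≤ x := (le_max_right _ _).trans hx
      apply le_antisymm
      · exact Nat.find_min' _ (Or.inl fun y _ => hp₀ y)
      · by_contra hcon
        push Not at hcon
        rcases Nat.find_spec (exists_m t₁ f x) with h1 | h1
        · have h2 : xs (m t₁ f x) ≤ (Finset.range p₀).sup xs :=
            Finset.le_sup (f := xs) (Finset.mem_range.2 hcon)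
          exact hxs _ hcon (ok_anti (h2.trans hx2) h1)
        · have h2 : x < m t₁ f x := h1
          omega
    refine ⟨X + 1, fun x hx => ?_⟩
    have h1 := hm x (by omega)
    have h2 := hm (x - 1) (by omega)
    simp [hfun, h1, h2]

lemma hfun_large {t₁ t₂ f : ℕ → ℕ} (h : ¬ ∃ p, ∀ y, G t₁ p y (f y) = true) :
    hfun t₁ t₂ f ∉ measure.cls t₂ := by
  intro hmem
  have hev : ∀ X, ∃ x ≥ X, m t₁ f x ≠ m t₁ f (x - 1) := by
    intro X
    by_contra hcon
    push Not at hcon
    have hconst : ∀ k, m t₁ f (X + k) = m t₁ f X := by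
      intro k
      induction k with
      | zero => rfl
      | succ k ih =>
        have := hcon (X + (k + 1)) (by omega)
        rw [this, ← ih]
        rfl
    push Not at h
    obtain ⟨y, hy⟩ := h (m t₁ f X)
    let x := X + (y + m t₁ f X)
    have hx : m t₁ f x = m t₁ f X := hconst _
    rcases Nat.find_spec (exists_m t₁ f x) with h1 | h1
    · have h2 : ok t₁ f (m t₁ f X) x := by
        rw [← hx]
        exact h1
      exact hy (h2 y (by omega))
    · have h2 : x < m t₁ f x := h1
      rw [hx] at h2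
      omega
  obtain ⟨e, he, n, hn⟩ := mem_cls.1 hmem
  obtain ⟨x, hx, hne⟩ := hev (max n (e + 1))
  have hx1 : n ≤ x := (le_max_left _ _).trans hx
  have hx2 : e + 1 ≤ x := (le_max_right _ _).trans hx
  have h1 := E_eq_of_computes he (hn x hx1)
  have h2 := S_ge t₂ x e x (by omega)
  rw [h1] at h2
  have h3 : hfun t₁ t₂ f x = 1 + S t₂ x x := by
    have : (m t₁ f x == m t₁ f (x - 1)) = false := by
      rw [beq_eq_false_iff_ne]
      exact hne
    simp only [hfun, this, cond_false]
  simp only [Option.getD_some] at h2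
  omega

lemma reducible {t₁ t₂ : ℕ → ℕ} (h₁ : Computable t₁) (h₂ : Computable t₂) :
    OneOneReducible (measure.Omega t₁) (measure.Omega t₂) := by
  obtain ⟨g, hg, hinj, hgF⟩ := translation_inj (F t₁ t₂) (F_partrec h₁ h₂)
  refine ⟨g, hg, hinj, fun i => ?_⟩
  constructor
  · rintro ⟨f, hf, hfi⟩
    refine ⟨hfun t₁ t₂ f, hfun_small (mem_cls_iff.2 hf), fun x => ?_⟩
    show phi (g i) x = _
    rw [hgF]
    exact F_eq hfi x
  · rintro ⟨h, hh, hhi⟩
    have hdom : ∀ x, (phi i x).Dom := by
      intro x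
      have h3 : phi (g i) x = Part.some (h x) := hhi x
      rw [hgF] at h3
      apply F_dom (t₁ := t₁) (t₂ := t₂)
      rw [h3]
      trivial
    have hfi : measure.Computes i (fun x => (phi i x).get (hdom x)) := fun x =>
      (Part.some_get (hdom x)).symm
    refine ⟨_, ?_, hfi⟩
    rw [← mem_cls_iff]
    by_contra hcon
    apply hfun_large (t₂ := t₂) hcon
    have heq : hfun t₁ t₂ (fun x => (phi i x).get (hdom x)) = h := by
      funext x
      have h3 : phi (g i) x = Part.some (h x) := hhi x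
      rw [hgF, F_eq hfi] at h3
      exact Part.some_injective h3
    rw [heq]
    exact hh

/-- Main result: there is a conform Blum measure one of whose complexity classes is not
recursively enumerable. -/
theorem result : ∃ B : BlumMeasure, B.Conform ∧
    ∃ t : ℕ → ℕ, Computable t ∧ ¬ B.IsRE (B.cls t) :=
  ⟨measure, fun _ _ h₁ h₂ _ _ => ⟨reducible h₁ h₂, reducible h₂ h₁⟩,
    fun _ => 0, Computable.const 0, not_re⟩

end Pool.Agent.Results.MP_9ab454_lc.ConformNotRE
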